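import Pool.Agent.Run7.h379.AS.Main

/-! # Affine surface area domination does not imply volume domination -/

namespace Pool.Agent.Results.MP_8228af_gt.TruncatedCrossPolytope

open MeasureTheory
open scoped ENNReal

/-- A convex body (a compact convex set with nonempty interior) which is symmetric about `0`. -/
def IsSymmetricBody {n : ℕ} (C : Set (EuclideanSpace ℝ (Fin n))) : Prop :=
  IsCompact C ∧ Convex ℝ C ∧ (interior C).Nonempty ∧ ∀ x ∈ C, -x ∈ C

/-- The surface area: the `(n - 1)`-dimensional Euclidean Hausdorff measure of the boundary. -/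
noncomputable def surfaceArea {n : ℕ} (C : Set (EuclideanSpace ℝ (Fin n))) : ℝ≥0∞ :=
  μHE[n - 1] (frontier C)

/-- In every dimension `n ≥ 3` there are origin-symmetric convex bodies `C₁` and `C₂` such that
`S(A C₁) ≤ S(A C₂) < ∞` for every nonsingular affine map `A`, while `Vol C₂ < Vol C₁`. -/
theorem result (n : ℕ) (hn : 3 ≤ n) :
    ∃ C₁ C₂ : Set (EuclideanSpace ℝ (Fin n)), IsSymmetricBody C₁ ∧ IsSymmetricBody C₂ ∧
      (∀ A : EuclideanSpace ℝ (Fin n) ≃ᵃ[ℝ] EuclideanSpace ℝ (Fin n),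
        surfaceArea (A '' C₁) ≤ surfaceArea (A '' C₂) ∧ surfaceArea (A '' C₂) < ⊤) ∧
      volume C₂ < volume C₁ := by
  obtain ⟨k, rfl⟩ : ∃ k, n = k + 3 := ⟨n - 3, by omega⟩
  exact Pool.Agent.Run7.h379.AS.main k

end Pool.Agent.Results.MP_8228af_gt.TruncatedCrossPolytope
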